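import Pool.Agent.KS6_14.BD.Red

set_option autoImplicit false

/-!
# MP_307b22_lc: the broadcast dimension cannot be approximated within a constant factor
-/

namespace Pool.Agent.Results.MP_307b22_lc.NoConstantRatio

open Pool.Agent.NPC Pool.Agent.H692R2 Pool.Agent.KS6_14.BD
open Pool.Agent.Q324.BD (bdim)
open Pool.Agent.R550.HS (Hits uPoly_powc)

/-- `G` has a vertex adjacent to all others. -/
def Universal (G : FinGraph) : Prop := ∃ u, ∀ v, v ≠ u → G.graph.Adj u v

/-- There is a polynomial-time algorithm which for every finite graph `G` with a vertex adjacent to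
all others outputs a number `s` with `bdim G ≤ s ≤ ρ * bdim G`. -/
def Approx (ρ : ℝ) : Prop :=
  ∃ A : List Bool → List Bool, PolyTime A ∧ ∀ G : FinGraph, Universal G →
    ∃ s : ℕ, A (bits G) = bits s ∧ bdim G.graph ≤ s ∧ (s : ℝ) ≤ ρ * bdim G.graph

theorem three_mul_le (m : ℕ) : 3 * m ≤ 2 ^ (2 * m) := by
  induction m with
  | zero => simp
  | succ m ih =>
    rcases Nat.eq_zero_or_pos m with rfl | hm
    · norm_num
    · have : 2 ^ (2 * (m + 1)) = 4 * 2 ^ (2 * m) := by
        rw [show 2 * (m + 1) = 2 * m + 2 by ring, pow_add]; ring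
      rw [this]
      omega

theorem ex_le {m t N : ℕ} {H : List (List ℕ)} (hm : 0 < m) (ht : 0 < t) (hN : N = (3 * m) ^ t)
    (hM : H.length ≤ 2 ^ (4 * m * (2 ^ t - 1))) : ex N H + 3 ≤ 5 * (2 * m) ^ t := by
  obtain ⟨E, hE⟩ : ∃ E, E = 4 * m * (2 ^ t - 1) := ⟨_, rfl⟩
  have h2t : 2 ≤ 2 ^ t := by
    calc 2 = 2 ^ 1 := by norm_num
      _ ≤ 2 ^ t := Nat.pow_le_pow_right (by norm_num) ht
  have htt : t < 2 ^ t := Nat.lt_two_pow_self
  have h1 : N ≤ 2 ^ E := by
    rw [hN, hE]
    calc (3 * m) ^ t ≤ (2 ^ (2 * m)) ^ t := Nat.pow_le_pow_left (three_mul_le m) t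
      _ = 2 ^ (2 * m * t) := by rw [← pow_mul]
      _ ≤ 2 ^ (4 * m * (2 ^ t - 1)) := by
        refine Nat.pow_le_pow_right (by norm_num) ?_
        have h3 : t ≤ 2 * (2 ^ t - 1) := by omega
        calc 2 * m * t ≤ 2 * m * (2 * (2 ^ t - 1)) := Nat.mul_le_mul_left _ h3
          _ = 4 * m * (2 ^ t - 1) := by ring
  rw [← hE] at hM
  have h2 : ex N H ≤ E + 2 := by
    unfold ex
    rw [Nat.size_eq_bits_len, Nat.size_le]
    have : 2 ^ (E + 2) = 4 * 2 ^ E := by rw [pow_add]; ring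
    have : 0 < 2 ^ E := by positivity
    omega
  have h3 : E + 4 * m = 4 * (m * 2 ^ t) := by
    rw [hE, show 4 * (m * 2 ^ t) = 4 * m * 2 ^ t by ring]
    have : 4 * m * 2 ^ t = 4 * m * ((2 ^ t - 1) + 1) := by
      congr 1
      omega
    rw [this]
    ring
  have h4 : m * 2 ^ t ≤ (2 * m) ^ t := by
    rw [mul_pow, mul_comm]
    refine Nat.mul_le_mul_left _ ?_
    calc m = m ^ 1 := (pow_one m).symm
      _ ≤ m ^ t := Nat.pow_le_pow_right hm ht
  have h5 : 0 < m * 2 ^ t := by positivity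
  omega

theorem gapB (c : ℕ) {L : Set (List Bool)} (hL : InNP L) :
    ∃ f : List Bool → FinGraph × ℕ, Poly f ∧ ∀ x, Universal (f x).1 ∧
      (x ∈ L → bdim (f x).1.graph ≤ (f x).2) ∧ (x ∉ L → c * (f x).2 < bdim (f x).1.graph) := by
  obtain ⟨t, ht, hgap⟩ := Pool.Agent.R550.HS.gap (6 * c)
  obtain ⟨m, H, hm, hH, hmH⟩ := hgap hL
  refine ⟨fun x => (FG ((3 * m x) ^ t) (H x), 6 * (2 * m x) ^ t), ?_, fun x => ?_⟩
  · refine Poly.pair (poly_FG (uPoly_powc (UPoly.mul (UPoly.const 3) hm) t) hH) ?_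
    exact (UPoly.mul (UPoly.const 6) (uPoly_powc (UPoly.mul (UPoly.const 2) hm) t)).toPoly
  · obtain ⟨h1, h2, h3, h4, h5, h6, h7⟩ := hmH x
    refine ⟨FG_universal _ _, fun hx => ?_, fun hx => ?_⟩
    · obtain ⟨X, hX, hXc⟩ := h6 hx
      have e1 := bdim_le hX h3 hXc
      have e2 := ex_le h1 ht rfl h5
      change bdim (FG ((3 * m x) ^ t) (H x)).graph ≤ 6 * (2 * m x) ^ t
      omega
    · obtain ⟨X, hX, hXc⟩ := exists_hits (N := (3 * m x) ^ t) (H := H x) (fun C hC h0 => by
        have := h2 C hC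
        rw [h0] at this
        have h8 : 0 < 2 ^ t := by positivity
        simp only [List.length_nil] at this
        omega)
      have e1 := h7 hx X hX
      change c * (6 * (2 * m x) ^ t) < bdim (FG ((3 * m x) ^ t) (H x)).graph
      calc c * (6 * (2 * m x) ^ t) = 6 * c * (2 * m x) ^ t := by ring
        _ < X.card := e1
        _ ≤ _ := hXc

/-- **The broadcast dimension has no constant-factor approximation unless `P = NP`**, already for
graphs with a vertex adjacent to all others. For every constant `c`, every language of `NP` reduces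
in polynomial time to telling the graphs (with such a vertex) with `bdim ≤ k` from those with
`bdim > c * k`; and if for some constant `ρ` there is a polynomial-time `ρ`-approximation of `bdim`
on these graphs, then `P = NP`. -/
theorem result :
    (∀ (c : ℕ) (L : Set (List Bool)), InNP L → ∃ R : List Bool → List Bool, PolyTime R ∧
      ∀ x, ∃ (G : FinGraph) (k : ℕ), R x = bits (G, k) ∧ Universal G ∧
        (x ∈ L → bdim G.graph ≤ k) ∧ (x ∉ L → c * k < bdim G.graph)) ∧
    ((∃ ρ : ℝ, Approx ρ) → ∀ L : Set (List Bool), InNP L → InP L) := by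
  refine ⟨fun c L hL => ?_, ?_⟩
  · obtain ⟨f, hf, hfx⟩ := gapB c hL
    exact ⟨fun x => bits (f x), polyTime_bits hf, fun x =>
      ⟨(f x).1, (f x).2, rfl, (hfx x).1, (hfx x).2.1, (hfx x).2.2⟩⟩
  · rintro ⟨ρ, A, hA, hAG⟩ L hL
    obtain ⟨f, hf, hfx⟩ := gapB ⌈ρ⌉₊ hL
    have hd : Poly (fun x : List Bool => (unbits ℕ (A (bits (f x).1))).any
        fun s => decide (s ≤ ⌈ρ⌉₊ * (f x).2)) := by
      refine Poly.optAny_fp (o := fun x => unbits ℕ (A (bits (f x).1)))
        (h := fun x s => decide (s ≤ ⌈ρ⌉₊ * (f x).2)) ?_ ?_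
      · exact poly_unbits.comp ((Pool.Agent.H569R2.poly_of_polyTime hA).comp
          (Pool.Agent.H569R2.poly_bits.comp (Poly.fst hf)))
      · exact Poly.decide_le (Poly.snd Poly.id) (Poly.mul (NPC.Poly.const _)
          (Poly.snd (hf.comp (Poly.fst Poly.id))))
    refine ⟨fun x => [(unbits ℕ (A (bits (f x).1))).any fun s => decide (s ≤ ⌈ρ⌉₊ * (f x).2)],
      polyTime_of_poly hd, fun x => ?_⟩
    obtain ⟨h1, h2, h3⟩ := hfx x
    obtain ⟨s, hs, hs1, hs2⟩ := hAG _ h1
    beta_reduce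
    rw [hs, unbits_bits]
    simp only [Option.any_some]
    have key : x ∈ L ↔ s ≤ ⌈ρ⌉₊ * (f x).2 := by
      constructor
      · intro hx
        have e1 : (s : ℝ) ≤ ⌈ρ⌉₊ * (f x).2 := by
          calc (s : ℝ) ≤ ρ * bdim (f x).1.graph := hs2
            _ ≤ ⌈ρ⌉₊ * bdim (f x).1.graph :=
              mul_le_mul_of_nonneg_right (Nat.le_ceil ρ) (Nat.cast_nonneg _)
            _ ≤ ⌈ρ⌉₊ * (f x).2 := by
              refine mul_le_mul_of_nonneg_left ?_ (Nat.cast_nonneg _)
              exact_mod_cast h2 hx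
        exact_mod_cast e1
      · intro hle
        by_contra hx
        have := h3 hx
        omega
    rw [key]
    simp

end Pool.Agent.Results.MP_307b22_lc.NoConstantRatio
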